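import Pool.Agent.F5H.StmtsA
import Pool.Agent.F5S.Stmts

/-!
MP_f5cbfa_nt, squad F5H, block A, row A_GGF: one triple in a window, Fubini.
-/

set_option autoImplicit false

open MeasureTheory Filter Topology

namespace Pool.Agent.F5H.H02

open Pool.Agent.BTL Pool.Agent.F5S Pool.Agent.F5H

/-- row A_GGF -/
theorem ggf (tnf : TNFStmt) (kaf : KAFStmt) (prf : PRFStmt) : GGFStmt := by
  intro R e hR he p
  obtain ⟨t1, t2, t3, t4, t5, -, t7, -⟩ := tnf
  obtain ⟨k1, k2, k3, k4⟩ := kaf e he p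
  obtain ⟨p1, -, -, p4⟩ := prf R hR
  have tlt : ∀ u : ℝ, tn u ≠ 0 → |u| < 1 := fun u hu => by
    by_contra h
    exact hu (t4 u (not_lt.1 h))
  have tshift : ∀ (d : ℝ), 0 < d → ∀ s : ℝ,
      Integrable (fun σ : ℝ => tn ((s - σ) / d)) ∧ ∫ σ : ℝ, tn ((s - σ) / d) = d := by
    intro d hd s
    obtain ⟨a, b⟩ := t7 d hd
    refine ⟨a.comp_sub_left s, ?_⟩
    rw [integral_sub_left_eq_self (fun u : ℝ => tn (u / d)) volume s, b]
  -- the integrand
  have kc : ∀ A x, Continuous (fun s : ℝ => KA e p A s x) := fun A x =>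
    k2.comp (by fun_prop : Continuous fun s : ℝ => ((A, s, x) : (ℝ × ℝ × ℝ) × ℝ × R6))
  have ki : ∀ A x, Integrable (fun s : ℝ => KA e p A s x) := fun A x => (k4 A x).1
  have hnn : ∀ A σ s x, 0 ≤ tn ((s - σ) / R) * KA e p A s x := fun A σ s x =>
    mul_nonneg (t1 _).1 (k1 A s x).1
  have hle : ∀ A σ s x, tn ((s - σ) / R) * KA e p A s x ≤ KA e p A s x := fun A σ s x =>
    mul_le_of_le_one_left (k1 A s x).1 (t1 _).2
  have hint : ∀ A σ x, Integrable (fun s : ℝ => tn ((s - σ) / R) * KA e p A s x) := by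
    intro A σ x
    refine (ki A x).mono' ?_ (ae_of_all _ fun s => ?_)
    · exact ((t3.comp ((continuous_id.sub continuous_const).div_const R)).mul
        (kc A x)).aestronglyMeasurable
    · rw [Real.norm_eq_abs, abs_of_nonneg (hnn A σ s x)]
      exact hle A σ s x
  have kle : ∀ A s x, KA e p A s x ≤ tn ((qf A x.2.2 - s) / e) := by
    intro A s x
    unfold KA
    calc tn ((qf A x.1 - (p.1 + p.2) - s) / e) *
          (tn ((qf A x.2.1 - p.2 - s) / e) * tn ((qf A x.2.2 - s) / e))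
        ≤ tn ((qf A x.2.1 - p.2 - s) / e) * tn ((qf A x.2.2 - s) / e) :=
          mul_le_of_le_one_left (mul_nonneg (t1 _).1 (t1 _).1) (t1 _).2
      _ ≤ tn ((qf A x.2.2 - s) / e) := mul_le_of_le_one_left (t1 _).1 (t1 _).2
  refine ⟨?_, ?_, ?_, ?_, ?_⟩
  · have hc : Continuous (fun q : ((ℝ × ℝ × ℝ) × ℝ × R6) × ℝ =>
        tn ((q.2 - q.1.2.1) / R) * KA e p q.1.1 q.2 q.1.2.2) := by
      have c1 : Continuous (fun q : ((ℝ × ℝ × ℝ) × ℝ × R6) × ℝ => (q.2 - q.1.2.1) / R) := by
        fun_prop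
      have c2 : Continuous (fun q : ((ℝ × ℝ × ℝ) × ℝ × R6) × ℝ =>
          ((q.1.1, q.2, q.1.2.2) : (ℝ × ℝ × ℝ) × ℝ × R6)) := by
        fun_prop
      exact (t3.comp c1).mul (k2.comp c2)
    have hs : StronglyMeasurable (fun z : (ℝ × ℝ × ℝ) × ℝ × R6 =>
        ∫ s, tn ((s - z.2.1) / R) * KA e p z.1 s z.2.2) :=
      StronglyMeasurable.integral_prod_right (ν := volume)
        (f := fun (z : (ℝ × ℝ × ℝ) × ℝ × R6) (s : ℝ) => tn ((s - z.2.1) / R) * KA e p z.1 s z.2.2)
        hc.stronglyMeasurable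
    exact hs.measurable
  · intro A σ x
    refine ⟨integral_nonneg fun s => hnn A σ s x, ?_⟩
    obtain ⟨a, b⟩ := tshift e he (qf A x.2.2)
    calc gg R e p A σ x ≤ ∫ s, tn ((qf A x.2.2 - s) / e) :=
          integral_mono (hint A σ x) a fun s => (hle A σ s x).trans (kle A s x)
      _ = e := b
  · intro A σ x hne
    by_cases hex : ∃ s, tn ((s - σ) / R) * KA e p A s x ≠ 0
    · obtain ⟨s, hs⟩ := hex
      have h1 := tlt _ (left_ne_zero_of_mul hs)
      rw [abs_div, abs_of_pos hR, div_lt_one hR] at h1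
      obtain ⟨b1, b2, b3⟩ := k3 A s x (right_ne_zero_of_mul hs)
      rw [abs_lt] at h1 b1 b2 b3
      refine ⟨abs_le.2 ⟨?_, ?_⟩, abs_le.2 ⟨?_, ?_⟩, abs_le.2 ⟨?_, ?_⟩⟩ <;> linarith [h1.1, h1.2,
        b1.1, b1.2, b2.1, b2.2, b3.1, b3.2]
    · push Not at hex
      exact absurd (by unfold gg; simp only [hex, integral_zero]) hne
  · intro A x
    have hcm : AEStronglyMeasurable (fun q : ℝ × ℝ => tn ((q.2 - q.1) / R) * KA e p A q.2 x)
        (volume.prod volume) := by
      have c1 : Continuous (fun q : ℝ × ℝ => (q.2 - q.1) / R) := by fun_prop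
      exact ((t3.comp c1).mul ((kc A x).comp continuous_snd)).aestronglyMeasurable
    have hin : ∀ s : ℝ, Integrable (fun σ : ℝ => tn ((s - σ) / R) * KA e p A s x) := fun s =>
      (tshift R hR s).1.mul_const _
    have hval : ∀ s : ℝ, ∫ σ : ℝ, tn ((s - σ) / R) * KA e p A s x = R * KA e p A s x := by
      intro s
      rw [integral_mul_const, (tshift R hR s).2]
    have hI : Integrable (fun q : ℝ × ℝ => tn ((q.2 - q.1) / R) * KA e p A q.2 x)
        (volume.prod volume) := by
      rw [integrable_prod_iff' hcm]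
      refine ⟨ae_of_all _ fun s => hin s, ?_⟩
      have hfe : (fun s : ℝ => ∫ σ : ℝ, ‖tn ((s - σ) / R) * KA e p A s x‖) =
          fun s => R * KA e p A s x := by
        funext s
        rw [← hval s]
        refine integral_congr_ae (ae_of_all _ fun σ => ?_)
        exact (Real.norm_eq_abs _).trans (abs_of_nonneg (hnn A σ s x))
      rw [hfe]
      exact (ki A x).const_mul R
    refine ⟨hI.integral_prod_left, ?_⟩
    have hsw := integral_integral_swap
      (f := fun σ s : ℝ => tn ((s - σ) / R) * KA e p A s x) (μ := volume) (ν := volume) hI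
    calc ∫ σ, gg R e p A σ x = ∫ σ, ∫ s, tn ((s - σ) / R) * KA e p A s x := rfl
      _ = ∫ s, ∫ σ, tn ((s - σ) / R) * KA e p A s x := hsw
      _ = ∫ s, R * KA e p A s x := by simp only [hval]
      _ = R * kk e (difr A x - p) := by rw [integral_const_mul, (k4 A x).2]
  · intro A x y
    have hW : ∀ z : ℝ × ℝ, 0 ≤ KA e p A z.1 x * KA e p A z.2 y := fun z =>
      mul_nonneg (k1 A z.1 x).1 (k1 A z.2 y).1
    have hc2 : Continuous (fun z : ℝ × ℝ => KA e p A z.1 x * KA e p A z.2 y) :=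
      ((kc A x).comp continuous_fst).mul ((kc A y).comp continuous_snd)
    have hcm : AEStronglyMeasurable (fun q : ℝ × (ℝ × ℝ) =>
        (tn ((q.2.1 - q.1) / R) * tn ((q.2.2 - q.1) / R)) *
          (KA e p A q.2.1 x * KA e p A q.2.2 y)) (volume.prod volume) := by
      have c1 : Continuous (fun q : ℝ × (ℝ × ℝ) => (q.2.1 - q.1) / R) := by fun_prop
      have c2 : Continuous (fun q : ℝ × (ℝ × ℝ) => (q.2.2 - q.1) / R) := by fun_prop
      exact (((t3.comp c1).mul (t3.comp c2)).mul (hc2.comp continuous_snd)).aestronglyMeasurable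
    have hval : ∀ z : ℝ × ℝ, ∫ σ : ℝ, (tn ((z.1 - σ) / R) * tn ((z.2 - σ) / R)) *
        (KA e p A z.1 x * KA e p A z.2 y) =
        R * (PR R (z.1 - z.2) * (KA e p A z.1 x * KA e p A z.2 y)) := by
      intro z
      rw [integral_mul_const, (p4 z.1 z.2).2, mul_assoc]
    have hPc : Integrable (fun z : ℝ × ℝ => PR R (z.1 - z.2) *
        (KA e p A z.1 x * KA e p A z.2 y)) (volume.prod volume) := by
      have hLip : Continuous (PR R) := by
        have hL : LipschitzWith (Real.toNNReal (1 / R)) (PR R) := by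
          refine LipschitzWith.of_dist_le_mul fun u v => ?_
          rw [Real.dist_eq, Real.dist_eq, Real.coe_toNNReal _ (by positivity), one_div,
            inv_mul_eq_div]
          exact (prf R hR).2.2.1 u v
        exact hL.continuous
      refine ((ki A x).mul_prod (ki A y)).mono' ?_ (ae_of_all _ fun z => ?_)
      · exact ((hLip.comp (continuous_fst.sub continuous_snd)).mul hc2).aestronglyMeasurable
      · rw [Real.norm_eq_abs, abs_of_nonneg (mul_nonneg (p1 _).1 (hW z))]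
        exact mul_le_of_le_one_left (hW z) (p1 _).2
    have hI : Integrable (fun q : ℝ × (ℝ × ℝ) =>
        (tn ((q.2.1 - q.1) / R) * tn ((q.2.2 - q.1) / R)) *
          (KA e p A q.2.1 x * KA e p A q.2.2 y)) (volume.prod volume) := by
      rw [integrable_prod_iff' hcm]
      refine ⟨ae_of_all _ fun z =>
        ((p4 z.1 z.2).1).mul_const (KA e p A z.1 x * KA e p A z.2 y), ?_⟩
      have hfe : (fun z : ℝ × ℝ => ∫ σ : ℝ, ‖(tn ((z.1 - σ) / R) * tn ((z.2 - σ) / R)) *
          (KA e p A z.1 x * KA e p A z.2 y)‖) =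
          fun z => R * (PR R (z.1 - z.2) * (KA e p A z.1 x * KA e p A z.2 y)) := by
        funext z
        rw [← hval z]
        refine integral_congr_ae (ae_of_all _ fun σ => ?_)
        exact (Real.norm_eq_abs _).trans
          (abs_of_nonneg (mul_nonneg (mul_nonneg (t1 _).1 (t1 _).1) (hW z)))
      rw [hfe]
      exact hPc.const_mul R
    have hsw := integral_integral_swap
      (f := fun (σ : ℝ) (z : ℝ × ℝ) => (tn ((z.1 - σ) / R) * tn ((z.2 - σ) / R)) *
        (KA e p A z.1 x * KA e p A z.2 y)) (μ := volume) (ν := volume) hI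
    have hprod : ∀ σ : ℝ, gg R e p A σ x * gg R e p A σ y =
        ∫ z : ℝ × ℝ, (tn ((z.1 - σ) / R) * tn ((z.2 - σ) / R)) *
          (KA e p A z.1 x * KA e p A z.2 y) := by
      intro σ
      unfold gg
      rw [← integral_prod_mul, Measure.volume_eq_prod]
      refine integral_congr_ae (ae_of_all _ fun z => ?_)
      show tn ((z.1 - σ) / R) * KA e p A z.1 x * (tn ((z.2 - σ) / R) * KA e p A z.2 y) =
        tn ((z.1 - σ) / R) * tn ((z.2 - σ) / R) * (KA e p A z.1 x * KA e p A z.2 y)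
      ring
    calc ∫ σ, gg R e p A σ x * gg R e p A σ y
        = ∫ σ, ∫ z : ℝ × ℝ, (tn ((z.1 - σ) / R) * tn ((z.2 - σ) / R)) *
          (KA e p A z.1 x * KA e p A z.2 y) := by simp only [hprod]
      _ = ∫ z : ℝ × ℝ, ∫ σ, (tn ((z.1 - σ) / R) * tn ((z.2 - σ) / R)) *
          (KA e p A z.1 x * KA e p A z.2 y) := hsw
      _ = ∫ z : ℝ × ℝ, R * (PR R (z.1 - z.2) * (KA e p A z.1 x * KA e p A z.2 y)) := by
          simp only [hval]
      _ = R * RV R e p A x y := by rw [integral_const_mul]; rfl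

end Pool.Agent.F5H.H02
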