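import Pool.Agent.F5H.StmtsA

/-!
MP_f5cbfa_nt, squad F5H, block A, row A_SUM: the three measures, sums over differences.
-/

set_option autoImplicit false

open MeasureTheory Filter Topology

namespace Pool.Agent.F5H.H02

open Pool.Agent.BTL Pool.Agent.F5S Pool.Agent.F5H

theorem r3_add (x h : Z6) : r3 (x + h) = r3 x + r3 h := by
  simp [r3, rc]

theorem coord_le {c : ℝ × ℝ} {K : ℝ} (hK : 0 ≤ K) (h : nr c ≤ K ^ 2) : ‖c‖ ≤ K := by
  unfold nr at h
  rw [Prod.norm_def, Real.norm_eq_abs, Real.norm_eq_abs]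
  refine max_le ?_ ?_
  · exact abs_le_of_sq_le_sq (by nlinarith [sq_nonneg c.2]) hK
  · exact abs_le_of_sq_le_sq (by nlinarith [sq_nonneg c.1]) hK

theorem nr_lt {c x : ℝ × ℝ} {T : ℝ} (hT : 0 < T) (h : nr c ≤ (2 * T) ^ 2) (hx : ‖x - c‖ ≤ T) :
    nr x < (4 * T) ^ 2 := by
  have h1 : |x.1 - c.1| ≤ T := le_trans (norm_fst_le (x - c)) hx
  have h2 : |x.2 - c.2| ≤ T := le_trans (norm_snd_le (x - c)) hx
  have h3 : (x.1 - c.1) ^ 2 ≤ T ^ 2 := by
    rw [← sq_abs]; exact pow_le_pow_left₀ (abs_nonneg _) h1 2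
  have h4 : (x.2 - c.2) ^ 2 ≤ T ^ 2 := by
    rw [← sq_abs]; exact pow_le_pow_left₀ (abs_nonneg _) h2 2
  unfold nr at *
  nlinarith [sq_nonneg (x.1 - 2 * c.1), sq_nonneg (x.2 - 2 * c.2), mul_pos hT hT]

/-- the abstract form: a bounded measurable kernel whose support is near centres of norm `≤ 2T` -/
theorem sum_abs (T : ℝ) (hT : 0 < T) (F : R6 → R6 → ℝ) (B : ℝ)
    (hFm : Measurable (fun z : R6 × R6 => F z.1 z.2)) (hFb : ∀ x y, 0 ≤ F x y ∧ F x y ≤ B)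
    (hFs : ∀ x y, F x y ≠ 0 → ∃ c : R6, nle (2 * T) c ∧ ‖x - c‖ ≤ T ∧ ‖y - c‖ ≤ T)
    (ν₁ ν₂ : Measure R6)
    (h1 : ν₁ = ∑ t ∈ ball (4 * T) ×ˢ (ball (4 * T) ×ˢ ball (4 * T)), Measure.dirac (r3 t))
    (h2 : ν₂ = volume.restrict (Metric.closedBall 0 (4 * T))) :
    (∃ H : Finset Z6, ∫ z : R6 × R6, F z.1 z.2 ∂(ν₁.prod ν₁) =
      ∑ h ∈ H, ∑' x : Z6, F (r3 x) (r3 x + r3 h)) ∧
    ∫ z : R6 × R6, F z.1 z.2 ∂(ν₁.prod ν₂) = ∑' x : Z6, ∫ y, F (r3 x) y ∧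
    ∫ z : R6 × R6, F z.1 z.2 ∂(ν₂.prod ν₂) = ∫ z : R6 × R6, F z.1 z.2 := by
  classical
  have key : ∀ c x : R6, nle (2 * T) c → ‖x - c‖ ≤ T →
      nr x.1 < (4 * T) ^ 2 ∧ nr x.2.1 < (4 * T) ^ 2 ∧ nr x.2.2 < (4 * T) ^ 2 := by
    intro c x hc hx
    have a1 : ‖x.1 - c.1‖ ≤ T := le_trans (norm_fst_le (x - c)) hx
    have a2 : ‖x.2 - c.2‖ ≤ T := le_trans (norm_snd_le (x - c)) hx
    have a3 : ‖x.2.1 - c.2.1‖ ≤ T := le_trans (norm_fst_le (x.2 - c.2)) a2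
    have a4 : ‖x.2.2 - c.2.2‖ ≤ T := le_trans (norm_snd_le (x.2 - c.2)) a2
    exact ⟨nr_lt hT hc.1 a1, nr_lt hT hc.2.1 a3, nr_lt hT hc.2.2 a4⟩
  have keyB : ∀ c x : R6, nle (2 * T) c → ‖x - c‖ ≤ T → x ∈ Metric.closedBall (0 : R6) (4 * T) := by
    intro c x hc hx
    obtain ⟨b1, b2, b3⟩ := key c x hc hx
    rw [mem_closedBall_zero_iff, Prod.norm_def, Prod.norm_def (x := x.2)]
    have h4 : (0 : ℝ) ≤ 4 * T := by positivity
    exact max_le (coord_le h4 b1.le) (max_le (coord_le h4 b2.le) (coord_le h4 b3.le))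
  set B3 : Finset Z6 := ball (4 * T) ×ˢ (ball (4 * T) ×ˢ ball (4 * T)) with hB3
  have keyZ : ∀ (c : R6) (t : Z6), nle (2 * T) c → ‖r3 t - c‖ ≤ T → t ∈ B3 := by
    intro c t hc hx
    obtain ⟨b1, b2, b3⟩ := key c (r3 t) hc hx
    rw [hB3, Finset.mem_product, Finset.mem_product, mem_ball, mem_ball, mem_ball]
    exact ⟨b1, b2, b3⟩
  have zx : ∀ (t : Z6) (y : R6), t ∉ B3 → F (r3 t) y = 0 := by
    intro t y ht
    by_contra hne
    obtain ⟨c, hc, hx, -⟩ := hFs _ _ hne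
    exact ht (keyZ c t hc hx)
  have zy : ∀ (x : R6) (t : Z6), t ∉ B3 → F x (r3 t) = 0 := by
    intro x t ht
    by_contra hne
    obtain ⟨c, hc, -, hy⟩ := hFs _ _ hne
    exact ht (keyZ c t hc hy)
  have zyB : ∀ x y : R6, y ∉ Metric.closedBall (0 : R6) (4 * T) → F x y = 0 := by
    intro x y hy
    by_contra hne
    obtain ⟨c, hc, -, hy'⟩ := hFs _ _ hne
    exact hy (keyB c y hc hy')
  have zxB : ∀ x y : R6, x ∉ Metric.closedBall (0 : R6) (4 * T) → F x y = 0 := by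
    intro x y hx
    by_contra hne
    obtain ⟨c, hc, hx', -⟩ := hFs _ _ hne
    exact hx (keyB c x hc hx')
  have i1 : IsFiniteMeasure ν₁ := by
    rw [h1]
    infer_instance
  have i2 : IsFiniteMeasure ν₂ := by
    rw [h2]
    exact ⟨by
      rw [Measure.restrict_apply_univ]
      exact (isCompact_closedBall (0 : R6) (4 * T)).measure_lt_top⟩
  have hint : ∀ (μ ν : Measure R6) [IsFiniteMeasure μ] [IsFiniteMeasure ν],
      Integrable (fun z : R6 × R6 => F z.1 z.2) (μ.prod ν) := by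
    intro μ ν _ _
    refine Integrable.of_bound hFm.aestronglyMeasurable B (ae_of_all _ fun z => ?_)
    rw [Real.norm_eq_abs, abs_of_nonneg (hFb _ _).1]
    exact (hFb _ _).2
  have int1 : ∀ g : R6 → ℝ, ∫ x, g x ∂ν₁ = ∑ t ∈ B3, g (r3 t) := by
    intro g
    rw [h1, integral_finsetSum_measure]
    · refine Finset.sum_congr rfl fun t _ => ?_
      rw [integral_dirac]
    · intro t _
      exact integrable_dirac enorm_lt_top
  refine ⟨?_, ?_, ?_⟩
  · refine ⟨(B3 ×ˢ B3).image (fun q => q.2 - q.1), ?_⟩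
    rw [integral_prod _ (hint ν₁ ν₁), int1]
    have e1 : ∀ h ∈ (B3 ×ˢ B3).image (fun q : Z6 × Z6 => q.2 - q.1),
        ∑' x : Z6, F (r3 x) (r3 x + r3 h) = ∑ x ∈ B3, F (r3 x) (r3 (x + h)) := by
      intro h _
      rw [tsum_eq_sum (s := B3) (fun x hx => zx x _ hx)]
      exact Finset.sum_congr rfl fun x _ => by rw [r3_add]
    rw [Finset.sum_congr rfl e1, Finset.sum_comm]
    refine Finset.sum_congr rfl fun t ht => ?_
    rw [int1]
    have e2 : ∑ u ∈ B3, F (r3 t) (r3 u) =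
        ∑ h ∈ B3.image (fun u => u - t), F (r3 t) (r3 (t + h)) := by
      rw [Finset.sum_image (fun a _ b _ hab => sub_left_injective hab)]
      exact Finset.sum_congr rfl fun u _ => by rw [add_sub_cancel]
    rw [e2]
    refine Finset.sum_subset ?_ ?_
    · intro h hh
      rw [Finset.mem_image] at hh ⊢
      obtain ⟨u, hu, rfl⟩ := hh
      exact ⟨(t, u), Finset.mem_product.2 ⟨ht, hu⟩, rfl⟩
    · intro h _ hh
      apply zy
      intro hmem
      exact hh (Finset.mem_image.2 ⟨t + h, hmem, by rw [add_sub_cancel_left]⟩)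
  · rw [integral_prod _ (hint ν₁ ν₂), int1]
    rw [tsum_eq_sum (s := B3)]
    · refine Finset.sum_congr rfl fun t _ => ?_
      rw [h2]
      exact setIntegral_eq_integral_of_forall_compl_eq_zero fun y hy => zyB _ y hy
    · intro t ht
      simp only [zx t _ ht, integral_zero]
  · rw [h2, Measure.prod_restrict, ← Measure.volume_eq_prod]
    refine setIntegral_eq_integral_of_forall_compl_eq_zero fun z hz => ?_
    by_cases hz1 : z.1 ∈ Metric.closedBall (0 : R6) (4 * T)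
    · exact zyB _ _ fun hz2 => hz ⟨hz1, hz2⟩
    · exact zxB _ _ hz1

/-- row A_SUM -/
theorem sum (faf : FAFStmt) : SUMStmt := by
  intro M T L R e hM hT hL hLT hR he p W hWm hW01 hWs ν₁ ν₂ h1 h2
  obtain ⟨-, -, -, hFm, hFb, hFs⟩ := faf M L R e hM hL hR he p W hWm hW01
  refine sum_abs T hT (FF M L R e p W) _ hFm hFb ?_ ν₁ ν₂ h1 h2
  intro x y hne
  obtain ⟨c, hc, hx, hy⟩ := hFs x y hne
  exact ⟨c, hWs c hc, hx.trans hLT, hy.trans hLT⟩

end Pool.Agent.F5H.H02
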